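import Mathlib
import Pool.Agent.V11153.NLC.Cone
import Pool.Agent.Y364.E3.Tree

set_option autoImplicit false

/-!
# Non-evasive balls that are not locally constructible

The definitions `IsCx`, `realization`, `IsBall`, `IsFacet`, `AtMostTwo`, `SameFace`, `NonEvasive`,
`LCStage`, `IsLC` are in `Pool.Agent.H933R3.Defs`, the definitions `TreeStage`, `GlueStage`,
`IsTreeLC` are in `Pool.Agent.Y364.E3.Tree`.  The intermediate complexes of a local construction
are not required to be simplicial complexes here, so `¬ IsLC` and `¬ IsTreeLC` are the strongest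
forms of not being locally constructible.
-/

namespace Pool.Agent.Results.MP_9638d9_co.NonEvasiveNotLC

open Finset Pool.Agent.H933R3 Pool.Agent.Y364.E3 Pool.Agent.V11153.NLC

theorem stage_of_tree {V : Type} [DecidableEq V] {d : ℕ} {K 𝓕 T : Finset (Finset V)}
    (h : TreeStage d K 𝓕 T) : LCStage d K 𝓕 T := by
  induction h with
  | start F hF => exact LCStage.start F hF
  | attach 𝓕 T F F' R _ hF hF' hn hR h1 h2 hT ih =>
    exact LCStage.attach 𝓕 T F F' R ih hF hF' hn hR h1 h2 hT

theorem stage_of_glue {V : Type} [DecidableEq V] {d : ℕ} {K 𝓕 T G : Finset (Finset V)}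
    (h0 : LCStage d K 𝓕 T) (h : GlueStage d 𝓕 T G) : LCStage d K 𝓕 G := by
  induction h with
  | start => exact h0
  | glue G F F' R A _ hF hF' hne hR h1 h2 hG hA hAR hs ih =>
    exact LCStage.glue 𝓕 G F F' R A ih hF hF' hne hR h1 h2 hG hA hAR hs

/-- the two formulations of local constructibility are equivalent -/
theorem isLC_of_isTreeLC {V : Type} [DecidableEq V] {d : ℕ} {K : Finset (Finset V)}
    (h : IsTreeLC d K) : IsLC d K := by
  obtain ⟨h1, h2, 𝓕, T, G, h3, h4, h5, h6⟩ := h
  exact ⟨h1, h2, 𝓕, G, stage_of_glue (stage_of_tree h3) h4, h5, h6⟩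

/-- (1) For every `d ≥ 4` there is a simplicial `d`-ball, with `d + 9` vertices and 38 facets, which
is non-evasive but not locally constructible.
(2) Consequently, for `d ≥ 3` there is a simplicial `d`-ball that is non-evasive and not locally
constructible if and only if `d ≥ 4` (every non-evasive 3-ball is locally constructible). -/
theorem result :
    (∀ d : ℕ, 4 ≤ d → ∃ K : Finset (Finset (Fin (d + 9))),
      IsCx K ∧ IsBall d K ∧ (K.filter (fun F => F.card = d + 1)).card = 38 ∧
        NonEvasive K ∧ ¬ IsLC d K ∧ ¬ IsTreeLC d K) ∧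
    ∀ d : ℕ, 3 ≤ d →
      ((∃ (n : ℕ) (K : Finset (Finset (Fin n))),
        IsCx K ∧ IsBall d K ∧ NonEvasive K ∧ ¬ IsTreeLC d K) ↔ 4 ≤ d) := by
  have key : ∀ d : ℕ, 4 ≤ d → ∃ K : Finset (Finset (Fin (d + 9))),
      IsCx K ∧ IsBall d K ∧ (K.filter (fun F => F.card = d + 1)).card = 38 ∧
        NonEvasive K ∧ ¬ IsLC d K ∧ ¬ IsTreeLC d K := by
    intro d hd
    obtain ⟨k, rfl⟩ := Nat.exists_eq_add_of_le hd
    have h : 4 + k + 9 = 13 + k := by omega
    rw [h]
    refine ⟨Kc k, isCx_Kc k, isBall_Kc k, ?_, nonEvasive_Kc k, not_lc_Kc k,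
      fun h => not_lc_Kc k (isLC_of_isTreeLC h)⟩
    have h2 : (Kc k).filter (fun F => F.card = 4 + k + 1) = Gs k := by
      ext F
      rw [mem_filter, mem_Gs]
      constructor
      · rintro ⟨h3, h4⟩
        obtain ⟨m, hm, h5⟩ := mem_Kc.1 h3
        refine ⟨m, hm, (eq_of_subset_of_card_le h5 ?_).symm⟩
        rw [card_fac hm, h4]
        omega
      · rintro ⟨m, hm, rfl⟩
        refine ⟨mem_Kc.2 ⟨m, hm, Subset.refl _⟩, ?_⟩
        rw [card_fac hm]
        omega
    rw [h2, Gs, List.toFinset_card_of_nodup]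
    · rw [List.length_map]
      rfl
    · apply List.Nodup.map_on
      · intro m hm m' hm' he
        apply Nat.eq_of_testBit_eq
        intro i
        by_cases hi : i < 12
        · have h6 : (⟨i, by omega⟩ : Fin (13 + k)) ∈ fac k m ↔
              (⟨i, by omega⟩ : Fin (13 + k)) ∈ fac k m' := by rw [he]
          rw [mem_fac, mem_fac] at h6
          have h7 : ¬ 12 ≤ i := by omega
          simp only [h7, or_false] at h6
          rw [Bool.eq_iff_iff]
          exact h6
        · rw [Bool.eq_false_iff.2 (fun h => hi (bit_lt hm h)),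
            Bool.eq_false_iff.2 (fun h => hi (bit_lt hm' h))]
      · decide +kernel
  refine ⟨key, fun d hd => ⟨?_, ?_⟩⟩
  · rintro ⟨n, K, h1, h2, h3, h4⟩
    by_contra hcon
    have h5 : d = 3 := by omega
    subst h5
    exact h4 (Pool.Agent.Y364.E3.main h1 h2 h3)
  · intro h
    obtain ⟨K, h1, h2, -, h3, -, h4⟩ := key d h
    exact ⟨_, K, h1, h2, h3, h4⟩

end Pool.Agent.Results.MP_9638d9_co.NonEvasiveNotLC
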